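import Pool.Agent.SGB.Stmts

/-!
# SGB, row MNN: the numbers
-/

set_option autoImplicit false

open Finset
open scoped Pointwise

namespace Pool.Agent.SGB.H25

universe u

/-- `exp (x L)` -/
noncomputable def ex (L x : ℝ) : ℝ := Real.exp (x * L)

theorem ex_pos (L x : ℝ) : 0 < ex L x := Real.exp_pos _

theorem ex_mul (L x y : ℝ) : ex L x * ex L y = ex L (x + y) := by
  unfold ex
  rw [← Real.exp_add, add_mul]

theorem ex_div (L x y : ℝ) : ex L x / ex L y = ex L (x - y) := by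
  unfold ex
  rw [← Real.exp_sub, sub_mul]

theorem ex_pow (L x : ℝ) (n : ℕ) : ex L x ^ n = ex L (n * x) := by
  unfold ex
  rw [← Real.exp_nat_mul, mul_assoc]

theorem ex_sqrt (L x : ℝ) : Real.sqrt (ex L x) = ex L (x / 2) := by
  have h : ex L x = ex L (x / 2) ^ 2 := by
    rw [ex_pow]
    congr 1
    push_cast
    ring
  rw [h, Real.sqrt_sq (ex_pos _ _).le]

theorem ex_log (L x : ℝ) : Real.log (ex L x) = x * L := Real.log_exp _

theorem ex_le {L : ℝ} (hL : 0 ≤ L) {x y : ℝ} (h : x ≤ y) : ex L x ≤ ex L y :=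
  Real.exp_le_exp.2 (mul_le_mul_of_nonneg_right h hL)

theorem ex_lt {L : ℝ} (hL : 0 < L) {x y : ℝ} (h : x < y) : ex L x < ex L y :=
  Real.exp_lt_exp.2 (mul_lt_mul_of_pos_right h hL)

theorem half_ge {L c : ℝ} (h : Real.log 2 ≤ c * L) : ex L (-c) ≤ 1 / 2 := by
  have h1 : (2 : ℝ) ≤ ex L c := by
    calc (2 : ℝ) = Real.exp (Real.log 2) := (Real.exp_log two_pos).symm
      _ ≤ Real.exp (c * L) := Real.exp_le_exp.2 h
  have h2 : ex L (-c) * ex L c = 1 := by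
    rw [ex_mul, neg_add_cancel]
    simp [ex]
  have h3 := ex_pos L (-c)
  nlinarith

theorem aux1 (x y z : ℝ) (hy : y ≠ 0) (hz : z ≠ 0) :
    (2 * 2000) ^ 2 * (16 * x / (y * (3 / 4 * z))) = 4000 ^ 2 * 64 / 3 * (x / (y * z)) := by
  field_simp
  ring

theorem mnn (hPIN : PINStmt.{u}) (hMNX : MNXStmt.{u}) : MNNStmt.{u} := by
  intro H _ _ ι _ _ S T hST hTS hlog hsum
  classical
  have hpos : ∀ i j, 1 ≤ kk S T i j ∧ 1 ≤ tt S T i j := fun i j =>
    let h := hPIN H ι S T hST i j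
    ⟨h.2.2.2.2.2.2.2.1, h.2.2.2.2.2.2.2.2.1⟩
  have hN : 0 < nn H := by
    unfold nn
    exact_mod_cast Nat.card_pos
  obtain ⟨L, hLdef⟩ : ∃ L, L = Real.log (nn H) := ⟨_, rfl⟩
  rw [← hLdef] at hlog hsum
  have hL : 0 < L := by
    have h1 : 0 < Real.log 2 := Real.log_pos one_lt_two
    by_contra h
    have h2 : (1 : ℝ) / 10 ^ 11 * L ≤ 0 := by
      apply mul_nonpos_of_nonneg_of_nonpos
      · positivity
      · exact not_lt.1 h
    linarith
  have hNe : nn H = ex L 1 := by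
    unfold ex
    rw [one_mul, hLdef, Real.exp_log hN]
  have hhalf : ex L (-(1 / 10 ^ 11)) ≤ 1 / 2 := half_ge hlog
  have hhp : ∀ m : ℕ, ex L (m * (-(1 / 10 ^ 11))) ≤ (1 / 2) ^ m := by
    intro m
    rw [← ex_pow]
    exact pow_le_pow_left₀ (ex_pos _ _).le hhalf m
  have hsum' : ∀ k, ∑ l, (nn H / kk S T k l + nn H / tt S T k l) ≤
      16 * Fintype.card ι * ex L (1 / 2 + 1 / 10 ^ 11) := hsum
  have hn : (0 : ℝ) < Fintype.card ι := by exact_mod_cast Fintype.card_pos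
  -- the six conditions
  refine hMNX H ι S T 2000 20 (ex L (-1 / 1000)) (ex L (1 / 2 + 1 / 8000)) (ex L (1 / 2 + 1 / 400))
    (ex L (1 / 2 + 1 / 10 ^ 9)) (16 * ex L (1 / 2 + 1 / 10 ^ 11)) (ex L (1 / 12)) _ _ hST hTS
    (by norm_num) (by norm_num) (ex_pos _ _) (ex_pos _ _) (ex_pos _ _) (ex_pos _ _)
    (mul_pos (by norm_num) (ex_pos _ _)) (ex_pos _ _) ?_ ?_ ?_ ?_ rfl rfl ?_ ?_
  · -- (h1)
    intro k
    set P : ι → Prop := fun h => nn H ≤ ex L (1 / 2 + 1 / 10 ^ 9) * kk S T k h ∧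
      nn H ≤ ex L (1 / 2 + 1 / 10 ^ 9) * tt S T k h with hP
    have h1 : (((univ.filter fun h => ¬ P h).card : ℕ) : ℝ) * ex L (1 / 2 + 1 / 10 ^ 9) ≤
        16 * Fintype.card ι * ex L (1 / 2 + 1 / 10 ^ 11) := by
      refine le_trans ?_ (hsum' k)
      have h2 : ∑ l ∈ univ.filter (fun h => ¬ P h), ex L (1 / 2 + 1 / 10 ^ 9) ≤
          ∑ l ∈ univ.filter (fun h => ¬ P h), (nn H / kk S T k l + nn H / tt S T k l) := by
        refine Finset.sum_le_sum fun l hl => ?_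
        rw [Finset.mem_filter] at hl
        obtain ⟨hk, ht⟩ := hpos k l
        have hk0 : 0 < kk S T k l := by linarith
        have ht0 : 0 < tt S T k l := by linarith
        have hk1 : 0 < nn H / kk S T k l := div_pos hN hk0
        have ht1 : 0 < nn H / tt S T k l := div_pos hN ht0
        by_contra hcon
        rw [not_le] at hcon
        apply hl.2
        constructor
        · rw [← div_le_iff₀ hk0]
          linarith
        · rw [← div_le_iff₀ ht0]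
          linarith
      rw [Finset.sum_const, nsmul_eq_mul] at h2
      refine h2.trans (Finset.sum_le_sum_of_subset_of_nonneg (Finset.filter_subset _ _) ?_)
      intro l _ _
      obtain ⟨hk, ht⟩ := hpos k l
      have hk0 : 0 < kk S T k l := by linarith
      have ht0 : 0 < tt S T k l := by linarith
      positivity
    have h2 : (((univ.filter fun h => ¬ P h).card : ℕ) : ℝ) ≤ 1 / 4 * Fintype.card ι := by
      have h3 : 16 * ex L (1 / 2 + 1 / 10 ^ 11) ≤ 1 / 4 * ex L (1 / 2 + 1 / 10 ^ 9) := by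
        have h4 := hhp 6
        have h5 : ex L (1 / 2 + 1 / 10 ^ 11) ≤
            ex L (1 / 2 + 1 / 10 ^ 9) * ex L (((6 : ℕ) : ℝ) * (-(1 / 10 ^ 11))) := by
          rw [ex_mul]
          apply ex_le hL.le
          norm_num
        have h6 : ex L (1 / 2 + 1 / 10 ^ 9) * ex L (((6 : ℕ) : ℝ) * (-(1 / 10 ^ 11))) ≤
            ex L (1 / 2 + 1 / 10 ^ 9) * (1 / 2) ^ 6 :=
          mul_le_mul_of_nonneg_left h4 (ex_pos _ _).le
        have h7 := h5.trans h6
        have h8 : ((1 : ℝ) / 2) ^ 6 = 1 / 64 := by norm_num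
        rw [h8] at h7
        linarith
      have h4 : (((univ.filter fun h => ¬ P h).card : ℕ) : ℝ) * ex L (1 / 2 + 1 / 10 ^ 9) ≤
          1 / 4 * Fintype.card ι * ex L (1 / 2 + 1 / 10 ^ 9) := by
        refine h1.trans ?_
        have := mul_le_mul_of_nonneg_left h3 hn.le
        linarith
      exact le_of_mul_le_mul_right h4 (ex_pos _ _)
    have h3 : ((univ.filter P).card : ℝ) + ((univ.filter fun h => ¬ P h).card : ℝ) =
        Fintype.card ι := by
      have := Finset.card_filter_add_card_filter_not (s := (univ : Finset ι)) P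
      rw [Finset.card_univ] at this
      exact_mod_cast this
    have h4 : ((univ.filter P).card : ℝ) ≥ 3 / 4 * Fintype.card ι := by linarith
    exact h4
  · -- (h2)
    have h1 : ∀ k, ∑ l, nn H / kk S T k l ≤ 16 * Fintype.card ι * ex L (1 / 2 + 1 / 10 ^ 11) := by
      intro k
      refine (Finset.sum_le_sum fun l _ => ?_).trans (hsum' k)
      have ht0 : 0 < tt S T k l := by linarith [(hpos k l).2]
      have := (div_pos hN ht0).le
      linarith
    calc ∑ k, ∑ l, nn H / kk S T k l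
        ≤ ∑ _k : ι, 16 * (Fintype.card ι : ℝ) * ex L (1 / 2 + 1 / 10 ^ 11) :=
          Finset.sum_le_sum fun k _ => h1 k
      _ = 16 * ex L (1 / 2 + 1 / 10 ^ 11) * (Fintype.card ι : ℝ) ^ 2 := by
          rw [Finset.sum_const, nsmul_eq_mul, Finset.card_univ]
          ring
  · -- (h3)
    rw [mul_div_assoc, ex_div, ex_pow]
    have h1 := hhp 14
    have h2 : ex L (1 / 2 + 1 / 10 ^ 11 - (1 / 2 + 1 / 400)) ≤
        ex L (((2 : ℕ) : ℝ) * (-1 / 1000)) * ex L (((14 : ℕ) : ℝ) * (-(1 / 10 ^ 11))) := by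
      rw [ex_mul]
      apply ex_le hL.le
      norm_num
    have h3 : ex L (((2 : ℕ) : ℝ) * (-1 / 1000)) * ex L (((14 : ℕ) : ℝ) * (-(1 / 10 ^ 11))) ≤
        ex L (((2 : ℕ) : ℝ) * (-1 / 1000)) * (1 / 2) ^ 14 :=
      mul_le_mul_of_nonneg_left h1 (ex_pos _ _).le
    have h4 := h2.trans h3
    have h5 : ((1 : ℝ) / 2) ^ 14 = 1 / 16384 := by norm_num
    rw [h5] at h4
    have h6 := ex_pos L (((2 : ℕ) : ℝ) * (-1 / 1000))
    push_cast at h4 h6 ⊢
    nlinarith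
  · -- (h4)
    rw [← hLdef, ex_log, ex_pow]
    have h1 : (2 / ((20 : ℕ) : ℝ) - 1) * L + 2 * (1 - 1 / ((20 : ℕ) : ℝ)) *
        ((1 / 2 + 1 / 400) * L) = (5475 / 100000) * L := by
      push_cast
      ring
    rw [h1]
    change ex L (5475 / 100000) ≤ _
    have h2 : ex L (5475 / 100000) ≤
        ex L (1 / 12) * (ex L (((20 : ℕ) : ℝ) * (-1 / 1000)) * ex L (-(1 / 10 ^ 11))) := by
      rw [ex_mul, ex_mul]
      apply ex_le hL.le
      norm_num
    refine h2.trans (mul_le_mul_of_nonneg_left ?_ (ex_pos _ _).le)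
    exact (mul_le_mul_of_nonneg_left hhalf (ex_pos _ _).le).trans (le_of_eq (mul_one_div _ _))
  · -- (h5)
    have hη : 1 / 2 * (nn H / ex L (1 / 2 + 1 / 10 ^ 9) ^ 2) ^ 2 =
        1 / 2 * ex L (-4 / 10 ^ 9) := by
      rw [hNe, ex_pow, ex_div, ex_pow]
      congr 2
      push_cast
      norm_num
    have hμ : 3 / 4 * (Real.sqrt ((nn H / ex L (1 / 2 + 1 / 10 ^ 9)) ^ 3) / nn H) =
        3 / 4 * ex L (-1 / 4 - 3 / 2 / 10 ^ 9) := by
      rw [hNe, ex_div, ex_pow, ex_sqrt, ex_div]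
      congr 2
      push_cast
      norm_num
    have hs : Real.sqrt (nn H * ex L (1 / 2 + 1 / 8000)) = ex L (3 / 4 + 1 / 16000) := by
      rw [hNe, ex_mul, ex_sqrt]
      congr 1
      norm_num
    rw [hη, hμ, hs]
    have hR : ex L (2002 * (-(1 / 10 ^ 11)) - 8 / 10 ^ 6) ≤
        (1 / 2 * ex L (-4 / 10 ^ 9)) ^ 2000 / 4 := by
      have h1 : ex L (-(1 / 10 ^ 11) - 4 / 10 ^ 9) ≤ 1 / 2 * ex L (-4 / 10 ^ 9) := by
        have h2 : ex L (-(1 / 10 ^ 11) - 4 / 10 ^ 9) =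
            ex L (-(1 / 10 ^ 11)) * ex L (-4 / 10 ^ 9) := by
          rw [ex_mul]
          congr 1
          norm_num
        rw [h2]
        exact mul_le_mul_of_nonneg_right hhalf (ex_pos _ _).le
      have h3 := pow_le_pow_left₀ (ex_pos _ _).le h1 2000
      rw [ex_pow] at h3
      have h4 := hhp 2
      have h5 : ((1 : ℝ) / 2) ^ 2 = 1 / 4 := by norm_num
      rw [h5] at h4
      have h6 : ex L (2002 * (-(1 / 10 ^ 11)) - 8 / 10 ^ 6) =
          ex L (((2000 : ℕ) : ℝ) * (-(1 / 10 ^ 11) - 4 / 10 ^ 9)) *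
            ex L (((2 : ℕ) : ℝ) * (-(1 / 10 ^ 11))) := by
        rw [ex_mul]
        congr 1
        push_cast
        norm_num
      rw [h6]
      exact (mul_le_mul h3 h4 (ex_pos _ _).le (le_trans (ex_pos _ _).le h3)).trans
        (le_of_eq (mul_one_div _ _))
    have h1 : (2 * ((2000 : ℕ) : ℝ)) ^ 2 * (16 * ex L (1 / 2 + 1 / 10 ^ 11) /
        (ex L (3 / 4 + 1 / 16000) * (3 / 4 * ex L (-1 / 4 - 3 / 2 / 10 ^ 9)))) =
        4000 ^ 2 * 64 / 3 * ex L (1 / 10 ^ 11 + 3 / 2 / 10 ^ 9 - 1 / 16000) := by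
      have h2 : ex L (1 / 10 ^ 11 + 3 / 2 / 10 ^ 9 - 1 / 16000) = ex L (1 / 2 + 1 / 10 ^ 11) /
          (ex L (3 / 4 + 1 / 16000) * ex L (-1 / 4 - 3 / 2 / 10 ^ 9)) := by
        rw [ex_mul, ex_div]
        congr 1
        norm_num
      rw [h2]
      push_cast
      exact aux1 _ _ _ (ex_pos _ _).ne' (ex_pos _ _).ne'
    have h2 : ex L (1 / 12) ^ 2 * (ex L (1 / 2 + 1 / 10 ^ 9) / nn H) /
        (3 / 4 * ex L (-1 / 4 - 3 / 2 / 10 ^ 9)) = 4 / 3 * ex L (-1 / 12 + 5 / 2 / 10 ^ 9) := by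
      have h3 : ex L (-1 / 12 + 5 / 2 / 10 ^ 9) = ex L (1 / 12) ^ 2 *
          (ex L (1 / 2 + 1 / 10 ^ 9) / nn H) / ex L (-1 / 4 - 3 / 2 / 10 ^ 9) := by
        rw [hNe, ex_pow, ex_div, ex_mul, ex_div]
        congr 1
        push_cast
        norm_num
      rw [h3]
      have h4 := (ex_pos L (-1 / 4 - 3 / 2 / 10 ^ 9)).ne'
      field_simp
    rw [h1, h2]
    have h3 : 4000 ^ 2 * 64 / 3 * ex L (1 / 10 ^ 11 + 3 / 2 / 10 ^ 9 - 1 / 16000) ≤
        1 / 2 * ex L (2002 * (-(1 / 10 ^ 11)) - 8 / 10 ^ 6) := by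
      have h4 := hhp 30
      have h5 : ex L (1 / 10 ^ 11 + 3 / 2 / 10 ^ 9 - 1 / 16000) ≤
          ex L (2002 * (-(1 / 10 ^ 11)) - 8 / 10 ^ 6) *
            ex L (((30 : ℕ) : ℝ) * (-(1 / 10 ^ 11))) := by
        rw [ex_mul]
        apply ex_le hL.le
        push_cast
        norm_num
      have h6 := h5.trans (mul_le_mul_of_nonneg_left h4 (ex_pos _ _).le)
      have h7 : ((1 : ℝ) / 2) ^ 30 = 1 / 1073741824 := by norm_num
      rw [h7] at h6
      have h8 := ex_pos L (2002 * (-(1 / 10 ^ 11)) - 8 / 10 ^ 6)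
      linarith
    have h4 : 4 / 3 * ex L (-1 / 12 + 5 / 2 / 10 ^ 9) ≤
        1 / 2 * ex L (2002 * (-(1 / 10 ^ 11)) - 8 / 10 ^ 6) := by
      have h4 := hhp 2
      have h5 : ex L (-1 / 12 + 5 / 2 / 10 ^ 9) ≤
          ex L (2002 * (-(1 / 10 ^ 11)) - 8 / 10 ^ 6) *
            ex L (((2 : ℕ) : ℝ) * (-(1 / 10 ^ 11))) := by
        rw [ex_mul]
        apply ex_le hL.le
        push_cast
        norm_num
      have h6 := h5.trans (mul_le_mul_of_nonneg_left h4 (ex_pos _ _).le)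
      have h7 : ((1 : ℝ) / 2) ^ 2 = 1 / 4 := by norm_num
      rw [h7] at h6
      have h8 := ex_pos L (2002 * (-(1 / 10 ^ 11)) - 8 / 10 ^ 6)
      linarith
    have h5 : 1 / 2 * ex L (2002 * (-(1 / 10 ^ 11)) - 8 / 10 ^ 6) +
        1 / 2 * ex L (2002 * (-(1 / 10 ^ 11)) - 8 / 10 ^ 6) =
        ex L (2002 * (-(1 / 10 ^ 11)) - 8 / 10 ^ 6) := by ring
    exact ((add_le_add h3 h4).trans (le_of_eq h5)).trans hR
  · -- (h6)
    rw [← hLdef, ex_log]
    have h1 : (2 / (2 * ((2000 : ℕ) : ℝ)) - 1) * L + 2 * (1 - 1 / (2 * ((2000 : ℕ) : ℝ))) *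
        ((1 / 2 + 1 / 8000) * L) = ((2 / 4000 - 1) + 2 * (1 - 1 / 4000) * (1 / 2 + 1 / 8000)) * L := by
      push_cast
      ring
    rw [h1]
    have h2 : ex L (-1 / 1000) * Real.exp (((2 / 4000 - 1) + 2 * (1 - 1 / 4000) *
        (1 / 2 + 1 / 8000)) * L) = ex L (-1 / 1000 + ((2 / 4000 - 1) + 2 * (1 - 1 / 4000) *
        (1 / 2 + 1 / 8000))) := ex_mul L _ _
    rw [h2]
    have hη : 1 / 2 * (nn H / ex L (1 / 2 + 1 / 10 ^ 9) ^ 2) ^ 2 =
        1 / 2 * ex L (-4 / 10 ^ 9) := by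
      rw [hNe, ex_pow, ex_div, ex_pow]
      congr 2
      push_cast
      norm_num
    rw [hη]
    have h3 : ex L (-(1 / 10 ^ 11) - 4 / 10 ^ 9) ≤ 1 / 2 * ex L (-4 / 10 ^ 9) := by
      have h2 : ex L (-(1 / 10 ^ 11) - 4 / 10 ^ 9) =
          ex L (-(1 / 10 ^ 11)) * ex L (-4 / 10 ^ 9) := by
        rw [ex_mul]
        congr 1
        norm_num
      rw [h2]
      exact mul_le_mul_of_nonneg_right hhalf (ex_pos _ _).le
    have h4 := pow_le_pow_left₀ (ex_pos _ _).le h3 2000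
    rw [ex_pow] at h4
    have h5 : ex L (((2000 : ℕ) : ℝ) * (-(1 / 10 ^ 11) - 4 / 10 ^ 9)) * ex L (-(1 / 10 ^ 11)) ≤
        (1 / 2 * ex L (-4 / 10 ^ 9)) ^ 2000 / 2 := by
      exact (mul_le_mul h4 hhalf (ex_pos _ _).le (le_trans (ex_pos _ _).le h4)).trans
        (le_of_eq (mul_one_div _ _))
    refine lt_of_lt_of_le ?_ h5
    rw [ex_mul]
    apply ex_lt hL
    push_cast
    norm_num

end Pool.Agent.SGB.H25
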