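import Pool.Agent.SGB.Stmts

/-!
# SGB, row SGF: the theorem
-/

set_option autoImplicit false

open Finset
open scoped Pointwise

namespace Pool.Agent.SGB.H25

universe u

theorem nn_pos (H : Type u) [AddCommGroup H] [Fintype H] : 0 < nn H := by
  unfold nn
  exact_mod_cast Nat.card_pos

theorem sgf (hPIN : PINStmt.{u}) (hRED : REDStmt.{u}) (hFIB : FIBStmt.{u}) (hENE : ENEStmt.{u}) :
    SGFStmt.{u} := by
  intro H _ _ _ n S T A B hST hA hB hd hdis
  have hN : 0 < nn H := nn_pos H
  have hpos : ∀ i j, 1 ≤ kk S T i j ∧ 1 ≤ tt S T i j := fun i j =>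
    let h := hPIN H (Fin n) S T hST i j
    ⟨h.2.2.2.2.2.2.2.1, h.2.2.2.2.2.2.2.2.1⟩
  set ρ : ℝ := Real.exp ((-1 / 2 + 1 / 10 ^ 11) * Real.log (nn H)) with hρ
  have hρ0 : 0 < ρ := Real.exp_pos _
  have h1 := hENE H n A B (fun i j => 1 / kk S T i j + 1 / tt S T i j) ρ hd hdis
    (fun i j => by
      have := hpos i j
      have h1 : 0 < kk S T i j := by linarith [this.1]
      have h2 : 0 < tt S T i j := by linarith [this.2]
      positivity) hρ0.le
    (fun i j => by
      obtain ⟨hk, ht⟩ := hpos i j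
      obtain ⟨f1, f2⟩ := hFIB H (Fin n) S T A B hA hB i j
      have hk0 : 0 < kk S T i j := by linarith
      have ht0 : 0 < tt S T i j := by linarith
      rw [add_mul]
      refine add_le_add ?_ ?_
      · rw [one_div, inv_mul_le_iff₀ hk0]
        exact f1
      · rw [one_div, inv_mul_le_iff₀ ht0]
        exact f2)
    (fun J => by
      have h2 := hRED H {x // x ∈ J} (fun x => S x) (fun x => T x) (fun x => hST x)
      rw [Fintype.card_coe] at h2
      have h3 : ∑ i : {x // x ∈ J}, ∑ j : {x // x ∈ J},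
          (1 / kk (fun x : {x // x ∈ J} => S x) (fun x => T x) i j +
            1 / tt (fun x : {x // x ∈ J} => S x) (fun x => T x) i j) =
          ∑ i ∈ J, ∑ j ∈ J, (1 / kk S T i j + 1 / tt S T i j) := by
        rw [← Finset.sum_coe_sort J
          (fun i => ∑ j ∈ J, (1 / kk S T i j + 1 / tt S T i j))]
        refine Finset.sum_congr rfl fun i _ => ?_
        rw [← Finset.sum_coe_sort J (fun j => (1 / kk S T i j + 1 / tt S T i j))]
        rfl
      rw [h3] at h2
      rw [mul_comm]
      exact h2)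
  have h4 : (∑ i, ((A i).card : ℝ) * (B i).card) ^ 2 ≤ 2 * n * nn H ^ 2 / ρ := by
    rw [le_div_iff₀ hρ0, mul_comm]
    exact h1
  refine h4.trans (le_of_eq ?_)
  have h5 : (Fintype.card H : ℝ) = nn H := by
    unfold nn
    rw [Nat.card_eq_fintype_card]
  rw [h5, Real.rpow_def_of_pos hN, hρ]
  have h6 : nn H ^ 2 = Real.exp (2 * Real.log (nn H)) := by
    rw [two_mul, Real.exp_add, Real.exp_log hN, sq]
  rw [h6, mul_div_assoc, ← Real.exp_sub]
  congr 2
  ring

end Pool.Agent.SGB.H25
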